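import Pool.Agent.H.MP_b10ab5_co.C

set_option autoImplicit false

namespace Pool.Agent.Results.MP_b10ab5_co.No

open Pool.Agent.H.MP_b10ab5_co

theorem result : ∃ (ends : Fin 12 → Fin 8 × Fin 8) (e f : Fin 12), e ≠ f ∧
    (∀ g, (ends g).1 ≠ (ends g).2) ∧
    (Function.Injective fun g => s((ends g).1, (ends g).2)) ∧
    ∀ strict : Bool, ¬ SOS ends e f strict :=
  ⟨ends, 0, 4, by decide, noloop, by decide +kernel, not_sos⟩

end Pool.Agent.Results.MP_b10ab5_co.No
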